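import Pool.Agent.W79.ST.Basic

set_option autoImplicit false
set_option linter.all false

namespace Pool.Agent.W154.ST

open scoped Classical
open Pool.Agent.W79.ST

variable {Z A : Type}

/-- the vertices of the triple expansion -/
def eW : (VS (Z := Z) (fun _ : A => 3)) ≃ Z ⊕ A × Fin 3 where
  toFun w := match w with
    | ⟨.inl z, _⟩ => .inl z
    | ⟨.inr q, h⟩ => .inr (q.1, ⟨q.2, h q rfl⟩)
  invFun x := match x with
    | .inl z => ⟨.inl z, by intro q h; cases h⟩
    | .inr q => ⟨.inr (q.1, q.2.1), by intro r h; cases h; exact q.2.2⟩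
  left_inv := by rintro ⟨z | ⟨a, i⟩, h⟩ <;> rfl
  right_inv := by rintro (z | ⟨a, i⟩) <;> rfl

noncomputable instance [Fintype Z] [Fintype A] : Fintype (VS (Z := Z) (fun _ : A => 3)) :=
  Fintype.ofEquiv _ eW.symm

theorem card_W [Fintype Z] [Fintype A] :
    Fintype.card (VS (Z := Z) (fun _ : A => 3)) = Fintype.card Z + 3 * Fintype.card A := by
  rw [Fintype.card_congr eW, Fintype.card_sum, Fintype.card_prod, Fintype.card_fin]
  ring

theorem sum_mul [Fintype Z] [Fintype A] (S : Pres Z A) :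
    ∑ w : VS (Z := Z) (fun _ : A => 3), mul S w.1 = 3 * ∑ a, S.m a := by
  rw [← Equiv.sum_comp eW.symm, Fintype.sum_sum_type, Fintype.sum_prod_type]
  have h1 : ∀ z : Z, mul S ((eW (A := A)).symm (Sum.inl z)).1 = 0 := fun z => rfl
  have h2 : ∀ (a : A) (i : Fin 3), mul S ((eW (Z := Z)).symm (Sum.inr (a, i))).1 = S.m a :=
    fun a i => rfl
  simp only [h1, h2, Finset.sum_const_zero, zero_add, Finset.sum_const, Finset.card_univ,
    Fintype.card_fin, smul_eq_mul]
  rw [Finset.mul_sum]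

theorem kap_le (w : VS (Z := Z) (fun _ : A => 3)) : kap w.1 ≤ 3 := by
  obtain ⟨z | ⟨a, i⟩, h⟩ := w
  · simp [kap]
  · have := h (a, i) rfl
    simp only [kap]
    simp only at this
    omega

/-- quotient of two isomorphisms with the same first component -/
theorem isoP_quot (S : Pres Z A) (α : Z ≃ Z) (β β' : A ≃ A) (h : IsoP S S α β)
    (h' : IsoP S S α β') : IsoP S S 1 (β'.trans β.symm) := by
  obtain ⟨h1, h2, h3⟩ := h
  obtain ⟨h1', h2', h3'⟩ := h'
  have key : ∀ x : Z ⊕ A, Equiv.sumCongr α β (Equiv.sumCongr (1 : Z ≃ Z) (β'.trans β.symm) x) =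
      Equiv.sumCongr α β' x := by
    rintro (z | a)
    · rfl
    · simp
  refine ⟨?_, ?_, ?_⟩
  · intro x y
    rw [← h1, key, key, h1']
  · intro a b
    rw [← h2]
    simp only [Equiv.trans_apply, Equiv.apply_symm_apply]
    exact h2' a b
  · intro a
    rw [← h3]
    simp only [Equiv.trans_apply, Equiv.apply_symm_apply]
    exact h3' a

/-- the automorphisms preserving the number of the copy and the multiplicity -/
def KS (S : Pres Z A) : Set (Equiv.Perm (VS (Z := Z) (fun _ : A => 3))) :=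
  {h | h ∈ aut (H3 S) ∧ ∀ w, kap (h w).1 = kap w.1 ∧ mul S (h w).1 = mul S w.1}

theorem card_KS (hK : S_KEY) [Fintype Z] [Fintype A] (S : Pres Z A) :
    (KS S).ncard ≤ (Th S).ncard * (ThZ S).ncard ^ 2 := by
  have key : ∀ h : Equiv.Perm (VS (Z := Z) (fun _ : A => 3)), h ∈ KS S →
      ∃ (α : Z ≃ Z) (ν : ℕ → (A ≃ A)),
      (∀ z, ∀ hz : Sum.inl z ∈ VS (fun _ : A => 3), (h ⟨Sum.inl z, hz⟩).1 = Sum.inl (α z)) ∧
      (∀ i < 3, ∀ a, ∀ ha : Sum.inr (a, i) ∈ VS (Z := Z) (fun _ : A => 3),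
        (h ⟨Sum.inr (a, i), ha⟩).1 = Sum.inr (ν i a, i)) ∧
      (∀ i < 3, IsoP S S α (ν i)) := by
    intro h hh
    have e : H3 S ≃g H3 S := ⟨h, by intro a b; exact hh.1 a b⟩
    exact hK Z A Z A S S ⟨h, by intro a b; exact hh.1 a b⟩ hh.2
  choose! α ν hα hν hI using key
  have hprod : (Th S ×ˢ (ThZ S ×ˢ ThZ S)).ncard = (Th S).ncard * (ThZ S).ncard ^ 2 := by
    rw [Set.ncard_prod, Set.ncard_prod, pow_two]
  rw [← hprod]
  apply Set.ncard_le_ncard_of_injOn
    (fun h => ((α h, ν h 0), ((ν h 1).trans (ν h 0).symm, (ν h 2).trans (ν h 0).symm)))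
  · intro h hh
    refine ⟨hI h hh 0 (by norm_num), ?_, ?_⟩
    · exact isoP_quot S _ _ _ (hI h hh 0 (by norm_num)) (hI h hh 1 (by norm_num))
    · exact isoP_quot S _ _ _ (hI h hh 0 (by norm_num)) (hI h hh 2 (by norm_num))
  · intro h hh h' hh' heq
    simp only [Prod.mk.injEq] at heq
    obtain ⟨⟨e1, e2⟩, e3, e4⟩ := heq
    rw [e2] at e3 e4
    have e5 : ν h 1 = ν h' 1 := by
      ext a
      have := congrArg (fun f : A ≃ A => (ν h' 0) (f a)) e3
      simpa using this
    have e6 : ν h 2 = ν h' 2 := by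
      ext a
      have := congrArg (fun f : A ≃ A => (ν h' 0) (f a)) e4
      simpa using this
    apply Equiv.ext
    rintro ⟨z | ⟨a, i⟩, hw⟩
    · apply Subtype.ext
      rw [hα h hh, hα h' hh', e1]
    · have hi : i < 3 := hw (a, i) rfl
      apply Subtype.ext
      rw [hν h hh i hi, hν h' hh' i hi]
      interval_cases i
      · rw [e2]
      · rw [e5]
      · rw [e6]

theorem main : S_KEY → S_DCOUNT → S_AUTH := by
  intro hK hD Z A _ _ S hm
  let W := VS (Z := Z) (fun _ : A => 3)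
  let f : Equiv.Perm W → (W → ℕ × ℕ) := fun g w => (kap (g w).1, mul S (g w).1)
  let s : Finset (Equiv.Perm W) := Finset.univ.filter (fun g => g ∈ aut (H3 S))
  have hs : Nat.card (aut (H3 S)) = s.card := by
    rw [Nat.card_eq_fintype_card]
    exact Fintype.card_subtype _
  obtain ⟨hfin, hcard⟩ := hD W (3 * ∑ a, S.m a)
  have himg : (s.image f).card ≤ 4 ^ Fintype.card W * 2 ^ (Fintype.card W + 3 * ∑ a, S.m a) := by
    refine le_trans ?_ hcard
    rw [← Set.ncard_coe_finset]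
    apply Set.ncard_le_ncard _ hfin
    intro b hb
    rw [Finset.mem_coe, Finset.mem_image] at hb
    obtain ⟨g, _, rfl⟩ := hb
    refine ⟨fun w => kap_le _, ?_⟩
    have h1 : ∑ w : W, mul S (g w).1 = ∑ w : W, mul S w.1 :=
      Equiv.sum_comp g (fun w : W => mul S w.1)
    have h2 : ∑ w : W, (f g w).2 = 3 * ∑ a, S.m a := h1.trans (sum_mul S)
    exact h2.le
  have hfib : ∀ b ∈ s.image f, (s.filter fun x => f x = b).card ≤ (KS S).ncard := by
    intro b hb
    rw [Finset.mem_image] at hb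
    obtain ⟨g0, hg0, rfl⟩ := hb
    rw [Finset.mem_filter] at hg0
    rw [← Set.ncard_coe_finset]
    apply Set.ncard_le_ncard_of_injOn (fun g => g * g0⁻¹)
    · intro g hg
      rw [Finset.mem_coe, Finset.mem_filter, Finset.mem_filter] at hg
      obtain ⟨⟨_, hg1⟩, hg2⟩ := hg
      refine ⟨Subgroup.mul_mem _ hg1 (Subgroup.inv_mem _ hg0.2), ?_⟩
      intro w
      have h3 := congrFun hg2 (g0⁻¹ w)
      have h4 : g0 (g0⁻¹ w) = w := g0.apply_symm_apply w
      simp only [f, h4, Prod.mk.injEq] at h3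
      exact h3
    · intro g _ g' _ h
      exact mul_right_cancel h
  have h5 := Finset.card_le_mul_card_image s _ hfib
  rw [hs]
  calc s.card ≤ (KS S).ncard * (s.image f).card := h5
    _ ≤ ((Th S).ncard * (ThZ S).ncard ^ 2) *
        (4 ^ Fintype.card W * 2 ^ (Fintype.card W + 3 * ∑ a, S.m a)) :=
        Nat.mul_le_mul (card_KS hK S) himg
    _ = 2 ^ (3 * (Fintype.card Z + 3 * Fintype.card A) + 3 * ∑ a, S.m a) *
        ((Th S).ncard * (ThZ S).ncard ^ 2) := by
        rw [mul_comm]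
        congr 1
        have h6 : Fintype.card W = Fintype.card Z + 3 * Fintype.card A := card_W
        rw [h6, show (4 : ℕ) = 2 ^ 2 from rfl, ← pow_mul, ← pow_add]
        congr 1
        ring

end Pool.Agent.W154.ST
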